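import Pool.Agent.Helper22.BNS.Excl
import Pool.Agent.Helper38.BN.B3F2
import Pool.Agent.Helper38.BN.B3P4

/-!
# Project BN, block B3b: the case `n = 6`
-/

namespace Pool.Agent.Helper22.BNS

open Equiv Pool.Agent.Helper38.BN

theorem x2_six (φ : MulAut (A 3)) : ∃ s : A 3, ∀ x, piA 3 (φ x) = piA 3 (s * x * s⁻¹) := by
  have hne : ff φ (aA 0) ≠ ff φ (aA 1) := ne_of_noncomm (ff φ) (noncomm_aut φ)
  have hr : RelBr 5 (fun i => ff φ (aA i)) := (relA 3).toRelB.toRelBr.map (ff φ)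
  rcases l5 (by simp) hr hne with h | h
  · exact x2_of_swap (by omega) φ (isSwap_of_card h)
  · exact (six_excl φ h.1 h.2 hne).elim

end Pool.Agent.Helper22.BNS
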