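import Pool.Agent.Helper22.BNS.Perm6
import Pool.Agent.Helper38.BN.PiF
import Pool.Agent.Helper38.BN.IntL

/-!
# Project BN, block B3b, `n = 6`: the exceptional homomorphism does not come from an automorphism
-/

namespace Pool.Agent.Helper22.BNS

open Equiv Pool.Agent.Helper38.BN

/-- the wreath product `ℤ^6 ⋊ Perm 6` -/
abbrev Wr : Type := (Fin 6 → Multiplicative ℤ) ⋊[mulAutArrow] Perm (Fin 6)

/-- the first unit vector -/
def e0 : Fin 6 → Multiplicative ℤ := Pi.mulSingle 0 (Multiplicative.ofAdd 1)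

lemma inr_inl (σ : Perm (Fin 6)) (v : Fin 6 → Multiplicative ℤ) :
    (SemidirectProduct.inr σ * SemidirectProduct.inl v : Wr)
      = SemidirectProduct.inl (mulAutArrow σ v) * SemidirectProduct.inr σ := by
  rw [SemidirectProduct.inl_aut, mul_assoc, mul_assoc, ← map_mul]
  simp

lemma fix_e0 {σ : Perm (Fin 6)} (h : σ 0 = 0) : mulAutArrow σ e0 = e0 := by
  funext i
  change e0 (σ⁻¹ i) = e0 i
  unfold e0
  by_cases hi : i = 0
  · subst hi
    have : σ⁻¹ 0 = 0 := by rw [Perm.inv_eq_iff_eq, h]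
    rw [this]
  · have : σ⁻¹ i ≠ 0 := by
      intro e
      rw [Perm.inv_eq_iff_eq, h] at e
      exact hi e
    rw [Pi.mulSingle_eq_of_ne this, Pi.mulSingle_eq_of_ne hi]

lemma sw_zero {j : ℕ} (h0 : 0 < j) (hj : j < 5) : swF 3 j 0 = 0 := by
  unfold swF
  rw [dif_pos (by omega)]
  apply Equiv.swap_apply_of_ne_of_ne
  · intro e; have := congrArg Fin.val e; simp at this; omega
  · intro e; have := congrArg Fin.val e; simp at this

lemma comm_e0 {j : ℕ} (h0 : 0 < j) (hj : j < 5) :
    (SemidirectProduct.inr (swF 3 j) * SemidirectProduct.inl e0 : Wr)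
      = SemidirectProduct.inl e0 * SemidirectProduct.inr (swF 3 j) := by
  rw [inr_inl, fix_e0 (sw_zero h0 hj)]

lemma sw_sq (j : ℕ) : swF 3 j * swF 3 j = 1 := by
  unfold swF
  split_ifs
  · exact Equiv.swap_mul_self _ _
  · simp

lemma wr_rel : RelA 3 (fun j => (SemidirectProduct.inr (swF 3 j) : Wr))
    (SemidirectProduct.inr (swF 3 4)) (SemidirectProduct.inl e0) where
  comm i j h h' := by
    rw [← map_mul, ← map_mul, (swF_relA 3).comm i j h h']
  braid i h := by
    simp only [← map_mul]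
    rw [(swF_relA 3).braid i h]
  dcomm i h h' := comm_e0 h h'
  four h := by
    have h1 : ∀ v w : Fin 6 → Multiplicative ℤ,
        (SemidirectProduct.inl v * SemidirectProduct.inl w : Wr) = SemidirectProduct.inl (v * w) :=
      fun v w => (map_mul _ _ _).symm
    have h2 : (SemidirectProduct.inr (swF 3 0) * SemidirectProduct.inr (swF 3 0) : Wr) = 1 := by
      rw [← map_mul, sw_sq, map_one]
    have hL : (SemidirectProduct.inr (swF 3 0) * SemidirectProduct.inl e0 *
        SemidirectProduct.inr (swF 3 0) * SemidirectProduct.inl e0 : Wr)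
        = SemidirectProduct.inl (mulAutArrow (swF 3 0) e0) * SemidirectProduct.inl e0 := by
      rw [inr_inl, mul_assoc (SemidirectProduct.inl (mulAutArrow (swF 3 0) e0) : Wr), h2, mul_one]
    have hR : (SemidirectProduct.inl e0 * SemidirectProduct.inr (swF 3 0) *
        SemidirectProduct.inl e0 * SemidirectProduct.inr (swF 3 0) : Wr)
        = SemidirectProduct.inl e0 * SemidirectProduct.inl (mulAutArrow (swF 3 0) e0) := by
      rw [mul_assoc (SemidirectProduct.inl e0 : Wr), inr_inl, mul_assoc, mul_assoc, h2, mul_one]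
    rw [hL, hR, h1, h1, mul_comm]
  ba := rfl
  bb := by
    simp only [← map_mul]
    rw [(swF_relA 3).bb]
  bc i h := by
    rw [← map_mul, ← map_mul, (swF_relA 3).bc i h]
  bd := comm_e0 (by omega) (by omega)

/-- the homomorphism to the wreath product -/
def Th : A 3 →* Wr := liftA wr_rel

lemma Th_d : Th dA = SemidirectProduct.inl e0 := liftA_d _

lemma Th_right (x : A 3) : (Th x).right = piF 3 x := by
  have : (SemidirectProduct.rightHom : Wr →* Perm (Fin 6)).comp Th = piF 3 := by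
    apply homA_ext
    · intro j hj
      rw [MonoidHom.comp_apply]
      unfold Th
      rw [liftA_a _ hj, piF_a hj]
      simp
    · rw [MonoidHom.comp_apply]
      unfold Th
      rw [liftA_b, piF_b]
      simp
    · rw [MonoidHom.comp_apply, Th_d, piF_d]
      simp
  exact DFunLike.congr_fun this x

/-- constant vectors -/
def Cst (v : Fin 6 → Multiplicative ℤ) : Prop := ∀ p q, v p = v q

lemma conj_left (y z : Wr) (hz : z.right = 1) :
    (y * z * y⁻¹).left = mulAutArrow y.right z.left := by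
  have h1 : z = SemidirectProduct.inl z.left := by
    apply SemidirectProduct.ext
    · simp
    · simp [hz]
  have h2 : y = SemidirectProduct.inl y.left * SemidirectProduct.inr y.right :=
    (SemidirectProduct.inl_left_mul_inr_right y).symm
  have h3 : y * z * y⁻¹ = SemidirectProduct.inl (mulAutArrow y.right z.left) := by
    rw [mul_inv_eq_iff_eq_mul]
    conv_lhs => rw [h1, h2]
    rw [mul_assoc, inr_inl, ← mul_assoc, ← map_mul, mul_comm y.left, map_mul, mul_assoc,
      ← h2]
  rw [h3]; simp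

section
variable (φ : MulAut (A 3))

/-- the permutations of the images -/
def ff : A 3 →* Perm (Fin 6) := (piF 3).comp φ.toMonoidHom

lemma ff_apply (x : A 3) : ff φ x = piF 3 (φ x) := rfl

lemma ff_surj : Function.Surjective (ff φ) := by
  intro σ
  obtain ⟨y, hy⟩ := piF_surj σ
  exact ⟨φ.symm y, by rw [ff_apply, MulEquiv.apply_symm_apply, hy]⟩

/-- the vector of `φ x` -/
def cc (x : A 3) : Fin 6 → Multiplicative ℤ := (Th (φ x)).left

lemma cc_conj (h x : A 3) (hx : ff φ x = 1) :
    cc φ (h * x * h⁻¹) = mulAutArrow (ff φ h) (cc φ x) := by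
  unfold cc
  rw [map_mul, map_mul, map_inv, map_mul, map_mul, map_inv, conj_left, Th_right]
  · rfl
  · rw [Th_right]; exact hx

lemma cc_mul (x y : A 3) (hx : ff φ x = 1) : cc φ (x * y) = cc φ x * cc φ y := by
  unfold cc
  rw [map_mul, map_mul, SemidirectProduct.mul_left, Th_right]
  rw [ff_apply] at hx
  rw [hx, map_one]
  rfl

lemma cc_inv (x : A 3) (hx : ff φ x = 1) : cc φ x⁻¹ = (cc φ x)⁻¹ := by
  have h1 := cc_mul φ x x⁻¹ hx
  rw [mul_inv_cancel] at h1
  have h2 : cc φ 1 = 1 := by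
    unfold cc
    rw [map_one, map_one]; rfl
  rw [h2] at h1
  exact eq_inv_of_mul_eq_one_right h1.symm

lemma Cst_act {v : Fin 6 → Multiplicative ℤ} (hv : Cst v) (σ : Perm (Fin 6)) :
    mulAutArrow σ v = v := by
  funext i
  exact hv _ _

/-- the subgroup of the elements with constant vector -/
def NN : Subgroup (A 3) where
  carrier := {x | ff φ x = 1 ∧ Cst (cc φ x)}
  one_mem' := by
    refine ⟨map_one _, ?_⟩
    have h2 : cc φ 1 = 1 := by
      unfold cc
      rw [map_one, map_one]; rfl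
    rw [h2]
    intro p q; rfl
  mul_mem' := by
    rintro x y ⟨hx, hx'⟩ ⟨hy, hy'⟩
    refine ⟨by rw [map_mul, hx, hy, mul_one], ?_⟩
    rw [cc_mul φ x y hx]
    intro p q
    change cc φ x p * cc φ y p = cc φ x q * cc φ y q
    rw [hx' p q, hy' p q]
  inv_mem' := by
    rintro x ⟨hx, hx'⟩
    refine ⟨by rw [map_inv, hx, inv_one], ?_⟩
    rw [cc_inv φ x hx]
    intro p q
    change (cc φ x p)⁻¹ = (cc φ x q)⁻¹
    rw [hx' p q]

instance : (NN φ).Normal := by
  constructor
  rintro x ⟨hx, hx'⟩ h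
  refine ⟨by rw [map_mul, map_mul, map_inv, hx, mul_one, mul_inv_cancel], ?_⟩
  rw [cc_conj φ h x hx, Cst_act hx']
  exact hx'

/-- **Exclusion of the exceptional homomorphism.** -/
theorem six_excl (h1 : ff φ (aA 0) * ff φ (aA 0) = 1) (h2 : ∀ x, ff φ (aA 0) x ≠ x)
    (h3 : ff φ (aA 0) ≠ ff φ (aA 1)) : False := by
  have hr := relA 3
  have hS : Six (fun i => ff φ (aA i)) (ff φ bA) (ff φ dA) := by
    refine ⟨fun i j h h' => ?_, fun i h => ?_, fun i h h' => ?_, ?_, ?_, fun i h => ?_, ?_, h3⟩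
    · simp only [← map_mul]; rw [hr.comm i j h h']
    · simp only [← map_mul]; rw [hr.braid i h]
    · simp only [← map_mul]; rw [hr.dcomm i h h']
    · simp only [← map_mul]; rw [hr.ba]
    · simp only [← map_mul]; rw [hr.bb]
    · simp only [← map_mul]; rw [hr.bc i h]
    · refine ⟨h2, fun i => ?_⟩
      have := DFunLike.congr_fun h1 i
      exact this
  have hd : ff φ dA = 1 := hS.d_eq
  have hb : ff φ bA = ff φ (aA 4) := hS.b_eq
  have hu : ff φ uA = 1 := by
    unfold uA
    rw [map_mul, map_inv, hb, mul_inv_cancel]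
  have hsq : ∀ g : A 3, ff φ (g * (aA 0 * aA 0) * g⁻¹) = 1 := by
    intro g
    rw [map_mul, map_mul, map_inv, map_mul, h1, mul_one, mul_inv_cancel]
  have hsq0 : ff φ (aA 0 * aA 0) = 1 := by rw [map_mul, h1]
  -- constant vectors
  have key : ∀ (x : A 3) (i : ℕ), i + 1 < 5 → ff φ x = 1 → aA i * x = x * aA i →
      aA (i + 1) * x = x * aA (i + 1) → Cst (cc φ x) := by
    intro x i hi hx c1 c2
    have e1 : mulAutArrow (ff φ (aA i)) (cc φ x) = cc φ x := by
      rw [← cc_conj φ _ x hx, c1, mul_inv_cancel_right]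
    have e2 : mulAutArrow (ff φ (aA (i + 1))) (cc φ x) = cc φ x := by
      rw [← cc_conj φ _ x hx, c2, mul_inv_cancel_right]
    have fi1 : FIp (ff φ (aA i)) := hS.fi_all i (by omega)
    have fi2 : FIp (ff φ (aA (i + 1))) := hS.fi_all (i + 1) hi
    have i1 : (ff φ (aA i))⁻¹ = ff φ (aA i) := by
      rw [inv_eq_iff_mul_eq_one]
      exact Equiv.ext fi1.2
    have i2 : (ff φ (aA (i + 1)))⁻¹ = ff φ (aA (i + 1)) := by
      rw [inv_eq_iff_mul_eq_one]
      exact Equiv.ext fi2.2
    intro p q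
    refine (invariant_const fi1 fi2 (hS.braid i hi) (hS.ne_succ i hi) (cc φ x) (fun j => ?_)
      (fun j => ?_) q p)
    · have := congrFun e1 j
      change cc φ x ((ff φ (aA i))⁻¹ j) = cc φ x j at this
      rwa [i1] at this
    · have := congrFun e2 j
      change cc φ x ((ff φ (aA (i + 1)))⁻¹ j) = cc φ x j at this
      rwa [i2] at this
  have kd : Cst (cc φ dA) := key dA 1 (by omega) hd (hr.dcomm 1 (by omega) (by omega))
    (hr.dcomm 2 (by omega) (by omega))
  have c02 := hr.comm 0 2 (by omega) (by omega)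
  have c03 := hr.comm 0 3 (by omega) (by omega)
  have ka : Cst (cc φ (aA 0 * aA 0)) := by
    refine key _ 2 (by omega) hsq0 ?_ ?_
    · rw [← mul_assoc, ← c02, mul_assoc, ← c02, mul_assoc]
    · rw [← mul_assoc, ← c03, mul_assoc, ← c03, mul_assoc]
  -- the squares of all generators have the same vector
  have conj_succ : ∀ (x y : A 3), x * y * x = y * x * y →
      y * y = (x * y) * (x * x) * (x * y)⁻¹ := by
    intro x y h
    have h4 := braid_conj h
    have h5 : y * y = (x * y * x * (x * y)⁻¹) * (x * y * x * (x * y)⁻¹) := by rw [← h4]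
    rw [h5]; group
  have sqa : ∀ i, i < 5 → ∃ g : A 3, aA i * aA i = g * (aA 0 * aA 0) * g⁻¹ := by
    intro i
    induction i with
    | zero => intro _; exact ⟨1, by simp⟩
    | succ i ih =>
      intro hi
      obtain ⟨g, hg⟩ := ih (by omega)
      refine ⟨(aA i * aA (i + 1)) * g, ?_⟩
      rw [conj_succ _ _ (hr.braid i hi), hg]; group
  obtain ⟨g4, hg4⟩ := sqa 4 (by omega)
  obtain ⟨g3, hg3⟩ := sqa 3 (by omega)
  have hgb : bA * bA = ((aA 3 * bA) * g3) * (aA 0 * aA 0) * ((aA 3 * bA) * g3)⁻¹ := by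
    rw [conj_succ _ _ hr.bb.symm, hg3]; group
  have v4 : cc φ (aA 4 * aA 4) = cc φ (aA 0 * aA 0) := by
    rw [hg4, cc_conj φ _ _ hsq0, Cst_act ka]
  have vb : cc φ (bA * bA) = cc φ (aA 0 * aA 0) := by
    rw [hgb, cc_conj φ _ _ hsq0, Cst_act ka]
  have f44 : ff φ (aA 4 * aA 4) = 1 := by rw [hg4]; exact hsq _
  have fbb : ff φ (bA * bA) = 1 := by rw [hgb]; exact hsq _
  have huu : (uA : A 3) * uA = bA * bA * (aA 4 * aA 4)⁻¹ := by
    unfold uA
    have h5 : (bA : A 3) * aA (3 + 1) = aA (3 + 1) * bA := hr.ba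
    have h6 : (aA (3 + 1) : A 3)⁻¹ * bA = bA * (aA (3 + 1))⁻¹ := by
      rw [inv_mul_eq_iff_eq_mul, ← mul_assoc, ← h5, mul_inv_cancel_right]
    calc bA * (aA (3 + 1))⁻¹ * (bA * (aA (3 + 1) : A 3)⁻¹)
        = bA * ((aA (3 + 1))⁻¹ * bA) * (aA (3 + 1) : A 3)⁻¹ := by group
      _ = bA * bA * (aA 4 * aA 4 : A 3)⁻¹ := by rw [h6]; group
  have ku2 : cc φ uA * cc φ uA = 1 := by
    rw [← cc_mul φ _ _ hu, huu, cc_mul φ _ _ fbb, cc_inv φ _ f44, v4, vb, mul_inv_cancel]
  have ku : cc φ uA = 1 := by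
    funext i
    have h7 := congrFun ku2 i
    change cc φ uA i * cc φ uA i = 1 at h7
    have h8 : Multiplicative.toAdd (cc φ uA i) + Multiplicative.toAdd (cc φ uA i) = 0 :=
      congrArg Multiplicative.toAdd h7
    have h9 : Multiplicative.toAdd (cc φ uA i) = 0 := by omega
    exact Multiplicative.toAdd.injective h9
  -- so `P` consists of elements with constant vector
  have hP : P 3 ≤ NN φ := by
    rw [P_gen]
    apply Subgroup.normalClosure_le_normal
    rintro x (rfl | rfl | rfl)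
    · exact ⟨hsq0, ka⟩
    · exact ⟨hd, kd⟩
    · exact ⟨hu, by rw [ku]; intro p q; rfl⟩
  -- the kernel of `ff` is `P`
  have hker : ∀ x : A 3, ff φ x = 1 → piF 3 x = 1 := by
    have hlift : ∀ σ : Perm (Fin 6), ∃ y : A 3, piF 3 y = σ := fun σ => piF_surj σ
    choose l hl using hlift
    have h5 : ∀ x : A 3, ff φ (l (piF 3 x)) = ff φ x := by
      intro x
      have h6 : l (piF 3 x) * x⁻¹ ∈ P 3 := by
        rw [mem_P_iff, map_mul, hl, map_inv, mul_inv_cancel]
      have h7 := (hP h6).1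
      rw [map_mul, map_inv, mul_inv_eq_one] at h7
      exact h7
    have hsur : Function.Surjective (fun σ : Perm (Fin 6) => ff φ (l σ)) := by
      intro σ
      obtain ⟨x, hx⟩ := ff_surj φ σ
      exact ⟨piF 3 x, by rw [← hx]; exact h5 x⟩
    have hinj := Finite.injective_iff_surjective.mpr hsur
    intro x hx
    apply hinj
    change ff φ (l (piF 3 x)) = ff φ (l 1)
    have h8 := h5 1
    rw [map_one, map_one] at h8
    rw [h5, hx, h8]
  -- contradiction
  obtain ⟨x, hx⟩ : ∃ x : A 3, φ x = dA := ⟨φ.symm dA, MulEquiv.apply_symm_apply _ _⟩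
  have hfx : ff φ x = 1 := by rw [ff_apply, hx, piF_d]
  have hxP : x ∈ P 3 := by rw [mem_P_iff]; exact hker x hfx
  have hc := (hP hxP).2 0 1
  unfold cc at hc
  rw [hx, Th_d] at hc
  simp [e0] at hc

end

end Pool.Agent.Helper22.BNS
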