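import Pool.Agent.Helper22.BNS.Syn

/-!
# Braid relations between fixed point free involutions of six points
-/

namespace Pool.Agent.Helper22.BNS

open Equiv

/-- fixed point free involutions -/
def FIp (a : Perm (Fin 6)) : Prop := FI a

lemma FIp_conj {a : Perm (Fin 6)} (g : Perm (Fin 6)) (h : FIp a) : FIp (g * a * g⁻¹) := by
  refine ⟨fun i => ?_, fun i => ?_⟩
  · intro e
    apply h.1 (g⁻¹ i)
    have h1 : g (a (g⁻¹ i)) = i := e
    have h2 := congrArg (g⁻¹ : Perm (Fin 6)) h1
    simpa using h2
  · have h1 := h.2 (g⁻¹ i)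
    have h2 : g (a (a (g⁻¹ i))) = i := by rw [h1]; simp
    simpa using h2

lemma ne_pt {a b : Perm (Fin 6)} (h : a ≠ b) : ∃ i, a i ≠ b i := by
  by_contra hc
  push Not at hc
  exact h (Equiv.ext hc)

lemma trans_words {a b : Perm (Fin 6)} (ha : FIp a) (hb : FIp b) (hbr : a * b * a = b * a * b)
    (hne : a ≠ b) (p q : Fin 6) : q = p ∨ q = a p ∨ q = b p ∨ q = a (b p) ∨ q = b (a p) ∨
      q = a (b (a p)) := by
  have h1 := allFI_spec (allFI_spec trans_dec a ha) b hb
  have h2 : (f6 fun i => a (b (a i)) == b (a (b i))) = true := by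
    apply f6_of
    intro i
    have : (a * b * a) i = (b * a * b) i := by rw [hbr]
    simpa using this
  obtain ⟨i, hi⟩ := ne_pt hne
  have h3 : (e6 fun i => a i != b i) = true := e6_of (i := i) (by simpa using hi)
  have h4 := f6_spec (f6_spec (im_spec (im_spec h1 h2) h3) p) q
  simpa only [Bool.or_eq_true, beq_iff_eq] using h4

/-- two permutations which commute with two braided different fixed point free involutions and
agree at a point are equal -/
lemma eq_of_agree {a b g h : Perm (Fin 6)} (ha : FIp a) (hb : FIp b)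
    (hbr : a * b * a = b * a * b) (hne : a ≠ b) (ga : g * a = a * g) (gb : g * b = b * g)
    (hga : h * a = a * h) (hgb : h * b = b * h) {p : Fin 6} (hp : g p = h p) : g = h := by
  have ea : ∀ x, g (a x) = a (g x) := fun x => DFunLike.congr_fun ga x
  have eb : ∀ x, g (b x) = b (g x) := fun x => DFunLike.congr_fun gb x
  have fa : ∀ x, h (a x) = a (h x) := fun x => DFunLike.congr_fun hga x
  have fb : ∀ x, h (b x) = b (h x) := fun x => DFunLike.congr_fun hgb x
  apply Equiv.ext
  intro q
  rcases trans_words ha hb hbr hne p q with e | e | e | e | e | e <;>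
    simp only [e, ea, eb, fa, fb, hp]

lemma invariant_const {a b : Perm (Fin 6)} (ha : FIp a) (hb : FIp b)
    (hbr : a * b * a = b * a * b) (hne : a ≠ b) {X : Type*} (v : Fin 6 → X)
    (va : ∀ i, v (a i) = v i) (vb : ∀ i, v (b i) = v i) (p q : Fin 6) : v q = v p := by
  rcases trans_words ha hb hbr hne p q with e | e | e | e | e | e <;>
    simp only [e, va, vb]

lemma comm_agree {a b : Perm (Fin 6)} (ha : FIp a) (hb : FIp b) (hc : a * b = b * a)
    (hne : a ≠ b) : (∃ p, a p = b p) ∧ ∀ p q : Fin 6, a p = b p → a q = b q → q = p ∨ q = a p := by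
  have h1 := allFI_spec (allFI_spec comm_dec a ha) b hb
  have h2 : (f6 fun i => a (b i) == b (a i)) = true := by
    apply f6_of
    intro i
    have : (a * b) i = (b * a) i := by rw [hc]
    simpa using this
  obtain ⟨i, hi⟩ := ne_pt hne
  have h3 : (e6 fun i => a i != b i) = true := e6_of (i := i) (by simpa using hi)
  have h4 := im_spec (im_spec h1 h2) h3
  rw [Bool.and_eq_true] at h4
  refine ⟨?_, fun p q hp hq => ?_⟩
  · obtain ⟨p, hp⟩ := e6_spec h4.1
    exact ⟨p, by simpa using hp⟩
  · have h5 := im_spec (im_spec (f6_spec (f6_spec h4.2 p) q) (by simpa using hp)) (by simpa using hq)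
    simpa only [Bool.or_eq_true, beq_iff_eq] using h5

/-- commuting and braided elements are equal -/
lemma eq_of_comm_braid {K : Type*} [Group K] {x y : K} (h1 : x * y = y * x)
    (h2 : x * y * x = y * x * y) : x = y := by
  have h3 : x * y * x = x * y * y := by rw [h2, ← h1]
  exact mul_left_cancel h3

/-- the images of the generators -/
structure Six (s : ℕ → Perm (Fin 6)) (b d : Perm (Fin 6)) : Prop where
  comm : ∀ i j, i + 2 ≤ j → j < 5 → s i * s j = s j * s i
  braid : ∀ i, i + 1 < 5 → s i * s (i + 1) * s i = s (i + 1) * s i * s (i + 1)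
  dcomm : ∀ i, 0 < i → i < 5 → s i * d = d * s i
  ba : b * s 4 = s 4 * b
  bb : b * s 3 * b = s 3 * b * s 3
  bc : ∀ i, i < 3 → b * s i = s i * b
  fi : FIp (s 0)
  ne : s 0 ≠ s 1

section
variable {s : ℕ → Perm (Fin 6)} {b d : Perm (Fin 6)}

lemma braid_conj {K : Type*} [Group K] {x y : K} (h : x * y * x = y * x * y) :
    y = x * y * x * (x * y)⁻¹ := by
  rw [h]; group

lemma Six.fi_all (h : Six s b d) : ∀ i, i < 5 → FIp (s i) := by
  intro i
  induction i with
  | zero => intro _; exact h.fi
  | succ i ih =>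
    intro hi
    have h1 := ih (by omega)
    have h2 := braid_conj (h.braid i hi)
    rw [h2]
    exact FIp_conj (s i * s (i + 1)) h1

lemma Six.fi_b (h : Six s b d) : FIp b := by
  have h2 := braid_conj h.bb.symm
  rw [h2]
  exact FIp_conj (s 3 * b) (h.fi_all 3 (by omega))

lemma Six.ne_succ (h : Six s b d) : ∀ i, i + 1 < 5 → s i ≠ s (i + 1) := by
  intro i
  induction i with
  | zero => intro _; exact h.ne
  | succ i ih =>
    intro hi e
    apply ih (by omega)
    apply eq_of_comm_braid _ (h.braid i (by omega))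
    rw [e]
    exact h.comm i (i + 1 + 1) (by omega) hi

lemma Six.b_eq (h : Six s b d) : b = s 4 := by
  by_contra hne
  obtain ⟨p, hp⟩ := (comm_agree h.fi_b (h.fi_all 4 (by omega)) h.ba hne).1
  exact hne (eq_of_agree h.fi (h.fi_all 1 (by omega)) (h.braid 0 (by omega)) h.ne
    (h.bc 0 (by omega)) (h.bc 1 (by omega)) (h.comm 0 4 (by omega) (by omega)).symm
    (h.comm 1 4 (by omega) (by omega)).symm hp)

lemma Six.d_eq (h : Six s b d) : d = 1 := by
  have hne : s 1 ≠ s 4 := by
    intro e
    apply h.ne_succ 1 (by omega)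
    apply eq_of_comm_braid _ (h.braid 1 (by omega))
    rw [e]
    exact (h.comm 2 4 (by omega) (by omega)).symm
  obtain ⟨⟨p, hp⟩, hu⟩ := comm_agree (h.fi_all 1 (by omega)) (h.fi_all 4 (by omega))
    (h.comm 1 4 (by omega) (by omega)) hne
  have e1 : s 1 (d p) = d (s 1 p) := DFunLike.congr_fun (h.dcomm 1 (by omega) (by omega)) p
  have e4 : s 4 (d p) = d (s 4 p) := DFunLike.congr_fun (h.dcomm 4 (by omega) (by omega)) p
  have hd : s 1 (d p) = s 4 (d p) := by rw [e1, e4, hp]
  have d3 := (h.dcomm 3 (by omega) (by omega)).symm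
  have d4 := (h.dcomm 4 (by omega) (by omega)).symm
  rcases hu p (d p) hp hd with e | e
  · exact eq_of_agree (h.fi_all 3 (by omega)) (h.fi_all 4 (by omega)) (h.braid 3 (by omega))
      (h.ne_succ 3 (by omega)) d3 d4 (by simp) (by simp) (p := p) (by simpa using e)
  · exfalso
    have h1 : d = s 1 := eq_of_agree (h.fi_all 3 (by omega)) (h.fi_all 4 (by omega))
      (h.braid 3 (by omega)) (h.ne_succ 3 (by omega)) d3 d4 (h.comm 1 3 (by omega) (by omega))
      (h.comm 1 4 (by omega) (by omega)) e
    apply h.ne_succ 1 (by omega)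
    apply eq_of_comm_braid _ (h.braid 1 (by omega))
    have h2 := h.dcomm 2 (by omega) (by omega)
    rw [h1] at h2
    exact h2.symm

end

end Pool.Agent.Helper22.BNS
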