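import Mathlib

/-!
# Fixed point free involutions of six points
-/

namespace Pool.Agent.Helper22.BNS

/-- a function from its six values -/
def vf (x0 x1 x2 x3 x4 x5 : Fin 6) (i : Fin 6) : Fin 6 :=
  match i with
  | 0 => x0 | 1 => x1 | 2 => x2 | 3 => x3 | 4 => x4 | 5 => x5

/-- fixed point free involutions, as functions -/
def FI (a : Fin 6 → Fin 6) : Prop := (∀ i, a i ≠ i) ∧ ∀ i, a (a i) = i

/-- quantification over six elements -/
def f6 (p : Fin 6 → Bool) : Bool := p 0 && (p 1 && (p 2 && (p 3 && (p 4 && p 5))))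

lemma f6_spec {p : Fin 6 → Bool} (h : f6 p = true) (i : Fin 6) : p i = true := by
  simp only [f6, Bool.and_eq_true] at h
  obtain ⟨h0, h1, h2, h3, h4, h5⟩ := h
  fin_cases i <;> assumption

/-- existence over six elements -/
def e6 (p : Fin 6 → Bool) : Bool := p 0 || (p 1 || (p 2 || (p 3 || (p 4 || p 5))))

lemma e6_spec {p : Fin 6 → Bool} (h : e6 p = true) : ∃ i, p i = true := by
  simp only [e6, Bool.or_eq_true] at h
  rcases h with h | h | h | h | h | h
  exacts [⟨0, h⟩, ⟨1, h⟩, ⟨2, h⟩, ⟨3, h⟩, ⟨4, h⟩, ⟨5, h⟩]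

lemma e6_of {p : Fin 6 → Bool} {i : Fin 6} (h : p i = true) : e6 p = true := by
  simp only [e6, Bool.or_eq_true]
  fin_cases i <;> tauto

lemma f6_of {p : Fin 6 → Bool} (h : ∀ i, p i = true) : f6 p = true := by
  simp only [f6, Bool.and_eq_true]
  exact ⟨h 0, h 1, h 2, h 3, h 4, h 5⟩

/-- implication -/
def im (a b : Bool) : Bool := cond a b true

lemma im_spec {a b : Bool} (h : im a b = true) (ha : a = true) : b = true := by
  subst ha; exact h

/-- pruned quantification over the fixed point free involutions -/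
def allFI (P : (Fin 6 → Fin 6) → Bool) : Bool :=
  f6 fun x0 => im (x0 != 0) <|
  f6 fun x1 => im (x1 != 1 && ((x0 == 1) == (x1 == 0))) <|
  f6 fun x2 => im (x2 != 2 && (((x0 == 2) == (x2 == 0)) && ((x1 == 2) == (x2 == 1)))) <|
  f6 fun x3 => im (x3 != 3 && (((x0 == 3) == (x3 == 0)) && (((x1 == 3) == (x3 == 1)) &&
    ((x2 == 3) == (x3 == 2))))) <|
  f6 fun x4 => im (x4 != 4 && (((x0 == 4) == (x4 == 0)) && (((x1 == 4) == (x4 == 1)) &&
    (((x2 == 4) == (x4 == 2)) && ((x3 == 4) == (x4 == 3)))))) <|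
  f6 fun x5 => im (x5 != 5 && (((x0 == 5) == (x5 == 0)) && (((x1 == 5) == (x5 == 1)) &&
    (((x2 == 5) == (x5 == 2)) && (((x3 == 5) == (x5 == 3)) && ((x4 == 5) == (x5 == 4))))))) <|
  P (vf x0 x1 x2 x3 x4 x5)

lemma eq_vf (a : Fin 6 → Fin 6) : a = vf (a 0) (a 1) (a 2) (a 3) (a 4) (a 5) := by
  funext i; fin_cases i <;> rfl

lemma allFI_spec {P : (Fin 6 → Fin 6) → Bool} (h : allFI P = true) (a : Fin 6 → Fin 6)
    (ha : FI a) : P a = true := by
  have key : ∀ i j : Fin 6, ((a i == j) == (a j == i)) = true := by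
    intro i j
    have h1 : a i = j ↔ a j = i :=
      ⟨fun e => by rw [← e]; exact ha.2 i, fun e => by rw [← e]; exact ha.2 j⟩
    by_cases h2 : a i = j
    · have h3 := h1.mp h2
      simp [h2, h3]
    · have h3 : a j ≠ i := fun e => h2 (h1.mpr e)
      simp [h2, h3]
  have ne : ∀ i : Fin 6, (a i != i) = true := fun i => by simp [ha.1 i]
  rw [eq_vf a]
  refine im_spec (f6_spec (im_spec (f6_spec (im_spec (f6_spec (im_spec (f6_spec (im_spec (f6_spec
    (im_spec (f6_spec h (a 0)) (ne 0)) (a 1)) ?_) (a 2)) ?_) (a 3)) ?_) (a 4)) ?_) (a 5)) ?_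
  · simp only [ne, key, Bool.and_self]
  · simp only [ne, key, Bool.and_self]
  · simp only [ne, key, Bool.and_self]
  · simp only [ne, key, Bool.and_self]
  · simp only [ne, key, Bool.and_self]

/-- two braided different fixed point free involutions generate a transitive group -/
theorem trans_dec : allFI (fun a => allFI (fun b => im (f6 fun i => a (b (a i)) == b (a (b i))) <|
    im (e6 fun i => a i != b i) <| f6 fun p => f6 fun q => q == p || (q == a p || (q == b p ||
      (q == a (b p) || (q == b (a p) || q == a (b (a p)))))))) = true := by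
  decide +kernel

/-- two commuting different fixed point free involutions agree exactly in two points -/
theorem comm_dec : allFI (fun a => allFI (fun b => im (f6 fun i => a (b i) == b (a i)) <|
    im (e6 fun i => a i != b i) <| (e6 fun p => a p == b p) && f6 fun p => f6 fun q =>
      im (a p == b p) <| im (a q == b q) <| (q == p || q == a p))) = true := by
  decide +kernel

end Pool.Agent.Helper22.BNS
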